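import Pool.Agent.Results.MP_a3f657_nt.TwoSelmerLawPythagorean
import Pool.Agent.NH3.XT.HtMain
import Pool.Agent.NH3.XT.HtSumm
import Pool.Agent.NH3.XT.HtHhb
import Pool.Agent.NH3.XT.HtCard
import Pool.Agent.NH3.XT.HtAll
import Pool.Agent.NH3.XT.HtTann
import Pool.Agent.NH3.XT.HtInj
import Pool.Agent.NH3.XT.HtMin

/-!
# The law of the `2 ^ ∞`-Selmer groups of the curves `y² = x (x - a² M) (x - b² M)`, `a² + c² = b²`, in the
order by HEIGHT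

The family: all the curves `E_{T,M} : y² = x (x - a² M) (x - b² M)`, `T = (a, b, c)` any primitive
Pythagorean triple `a² + c² = b²` (`a` odd, `a, b, c > 0`), `M` any squarefree integer prime to `3` (then the
curve is semistable at `3`; the short Weierstrass equations are minimal and different). They are ordered by
the naive height, and both `T` and `M` vary. A positive proportion of the family is in the class
`M ∈ C(T)` of the hand-in `TwoSelmerLawPythagorean`, and in this class the proportion of the curves such that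
`Sel_{2 ^ ∞}` has exactly `4 ^ r` elements killed by `2` exists and is `c(r)`, for every `r`; `∑ c(r) = 1`.
-/

set_option autoImplicit false

open Filter Topology

namespace Pool.Agent.Results.MP_a3f657_nt.EightCurvesByHeight

open Pool.Agent.Results.MP_a3f657_nt.TwoSelmerLawPythagorean

/-- The pairs `((a, b, c), M)`: `a² + c² = b²` is a primitive Pythagorean triple, `a` odd, `a, b, c > 0`, and
`M` is squarefree and prime to `3`. -/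
def Pairs : Set ((ℤ × ℤ × ℤ) × ℤ) :=
  {z | 0 < z.1.1 ∧ 0 < z.1.2.1 ∧ 0 < z.1.2.2 ∧ Triple z.1.1 z.1.2.1 z.1.2.2 ∧
    Squarefree z.2 ∧ ¬ (3 : ℤ) ∣ z.2}

/-- the curve of a pair: `y² = x³ + A x + B`, isomorphic to `y² = x (x - a² M) (x - b² M)` -/
def curve (z : (ℤ × ℤ × ℤ) × ℤ) : WeierstrassCurve ℚ := E z.1.1 z.1.2.1 z.2

/-- the naive height of the curve -/
def height (z : (ℤ × ℤ × ℤ) × ℤ) : ℤ :=
  max (4 * |A z.1.1 z.1.2.1 z.2| ^ 3) (27 * B z.1.1 z.1.2.1 z.2 ^ 2)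

/-- `M` is in the class of the triple -/
def Cls (z : (ℤ × ℤ × ℤ) × ℤ) : Prop := InClass z.1.1 z.1.2.1 z.1.2.2 z.2

/-- the number of the pairs of height at most `X` with the property `P` -/
noncomputable def number (P : (ℤ × ℤ × ℤ) × ℤ → Prop) (X : ℕ) : ℝ :=
  ({z : (ℤ × ℤ × ℤ) × ℤ | z ∈ Pairs ∧ height z ≤ X ∧ P z}.ncard : ℝ)

section proof

open Pool.Agent.NH3.XT.HT

theorem height_eq (z : (ℤ × ℤ × ℤ) × ℤ) : height z = z.2 ^ 6 * hh z.1.1 z.1.2.1 :=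
  hh_mul z.1.1 z.1.2.1 z.2

theorem three {a b c D : ℤ} (hT : Triple a b c) (hD : InClass a b c D) : ¬ (3 : ℤ) ∣ D := by
  intro h
  have h3 : Fact (Nat.Prime 3) := ⟨Nat.prime_three⟩
  have h0 : ((D : ℤ) : ZMod 3) = 0 := (ZMod.intCast_zmod_eq_zero_iff_dvd D 3).2 h
  rcases Pool.Agent.NH3.XT.three_dvd hT.1 with h1 | h1
  · refine hD.2.2.1 3 Nat.prime_three (by exact_mod_cast h1.mul_right b) ?_
    push_cast
    rw [h0, neg_zero]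
    exact ⟨0, by ring⟩
  · refine hD.2.2.2.1 3 Nat.prime_three (by norm_num) (by exact_mod_cast h1) ?_
    rw [h0]
    exact ⟨0, by ring⟩

theorem set_eq (P : (ℤ × ℤ × ℤ) × ℤ → Prop) (X : ℕ) :
    {z : (ℤ × ℤ × ℤ) × ℤ | z ∈ Pairs ∧ height z ≤ X ∧ Cls z ∧ P z} =
      ZZ (fun t M => InClass t.1 t.2.1 t.2.2 M ∧ P (t, M)) X := by
  ext z
  unfold ZZ Pairs
  simp only [Set.mem_ofPred_eq]
  rw [height_eq]
  constructor
  · rintro ⟨⟨h1, h2, h3, h4, h5, h6⟩, h7, h8, h9⟩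
    exact ⟨⟨h1, h2, h3, h4.1, h4.2.1, h4.2.2.1⟩, h8.1, h5, ⟨h8, h9⟩, h7⟩
  · rintro ⟨⟨h1, h2, h3, h4, h4', h4''⟩, h6, h5, ⟨h8, h9⟩, h7⟩
    have hT : Triple z.1.1 z.1.2.1 z.1.2.2 := ⟨h4, h4', h4'', h3.ne'⟩
    exact ⟨⟨h1, h2, h3, hT, h5, three hT h8⟩, h7, h8, h9⟩

theorem num_eq (P : (ℤ × ℤ × ℤ) × ℤ → Prop) (X : ℕ) :
    number (fun z => Cls z ∧ P z) X =
      ((ZZ (fun t M => InClass t.1 t.2.1 t.2.2 M ∧ P (t, M)) X).ncard : ℝ) := by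
  unfold number
  rw [set_eq]

theorem num_eq' (X : ℕ) :
    number Cls X = ((ZZ (fun t M => InClass t.1 t.2.1 t.2.2 M) X).ncard : ℝ) := by
  have h := num_eq (fun _ => True) X
  simp only [and_true] at h
  exact h

theorem shift_one (a b c : ℤ) : IsShift a b c 1 := by
  refine ⟨squarefree_one, fun p hp _ _ => ⟨fun h => hp.one_lt.ne' (Nat.dvd_one.1 h), ?_⟩,
    fun _ => rfl⟩
  rw [Nat.cast_one]
  exact ⟨1, by ring⟩

/-- the law for one triple -/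
theorem law_one {a b c : ℤ} (hT : Triple a b c) (r : ℕ) :
    Tendsto (fun X : ℕ => count (fun D => InClass a b c D ∧ selTwo (E a b D) = 4 ^ r) X /
      count (InClass a b c) X) atTop (𝓝 (prob r)) ∧
    ∃ δ : ℝ, 0 < δ ∧ ∀ᶠ X : ℕ in atTop, δ * X ≤ count (InClass a b c) X := by
  have h := part3 hT (n := 1) (g := fun _ => 1) (fun _ => shift_one a b c)
    (Function.injective_of_subsingleton _) (fun _ => r)
  rw [Fin.prod_univ_one] at h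
  simp only [Nat.cast_one, mul_one, forall_const] at h
  exact h

/-- the law by height -/
theorem law_height (r : ℕ) :
    Tendsto (fun X : ℕ => number (fun z => Cls z ∧ selTwo (curve z) = 4 ^ r) X / number Cls X)
      atTop (𝓝 (prob r)) ∧
    ∃ δ : ℝ, 0 < δ ∧ ∀ᶠ X : ℕ in atTop, δ * (X : ℝ) ^ (1 / 6 : ℝ) ≤ number Cls X := by
  have h := law_ht t_SUMM t_HHB t_CARD t_TANN
    (Q := fun t M => InClass t.1 t.2.1 t.2.2 M)
    (Q' := fun t M => InClass t.1 t.2.1 t.2.2 M ∧ selTwo (E t.1 t.2.1 M) = 4 ^ r) (c := prob r)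
    (fun t M h => h.1)
    (fun t => (law_one ⟨t.2.2.2.2.1, t.2.2.2.2.2.1, t.2.2.2.2.2.2, t.2.2.2.1.ne'⟩ r).1)
    ⟨t345, (law_one ⟨t345.2.2.2.2.1, t345.2.2.2.2.2.1, t345.2.2.2.2.2.2, t345.2.2.2.1.ne'⟩ r).2⟩
  simp only [num_eq, num_eq']
  exact h

theorem all_le : ∃ C : ℝ, 0 < C ∧ ∀ X : ℕ, {z : (ℤ × ℤ × ℤ) × ℤ | z ∈ Pairs ∧ height z ≤ X}.Finite ∧
    number (fun _ => True) X ≤ C * (X : ℝ) ^ (1 / 6 : ℝ) := by
  obtain ⟨C, hC, h⟩ := t_ALL t_SUMM t_HHB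
  refine ⟨C, hC, fun X => ?_⟩
  obtain ⟨h1, h2⟩ := h X
  have hsub : {z : (ℤ × ℤ × ℤ) × ℤ | z ∈ Pairs ∧ height z ≤ X} ⊆
      {z : (ℤ × ℤ × ℤ) × ℤ | Pyt z.1 ∧ Squarefree z.2 ∧ z.2 ^ 6 * hh z.1.1 z.1.2.1 ≤ X} := by
    rintro z ⟨⟨g1, g2, g3, g4, g5, g6⟩, g7⟩
    rw [height_eq] at g7
    exact ⟨⟨g1, g2, g3, g4.1, g4.2.1, g4.2.2.1⟩, g5, g7⟩
  refine ⟨h1.subset hsub, le_trans ?_ h2⟩
  unfold number
  refine Nat.cast_le.2 (Set.ncard_le_ncard ?_ h1)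
  rintro z ⟨g1, g2, -⟩
  exact hsub ⟨g1, g2⟩

theorem positive : ∃ δ : ℝ, 0 < δ ∧ ∀ᶠ X : ℕ in atTop,
    δ * number (fun _ => True) X ≤ number Cls X ∧ δ * (X : ℝ) ^ (1 / 6 : ℝ) ≤ number Cls X := by
  obtain ⟨C, hC, h⟩ := all_le
  obtain ⟨δ, hδ, h2⟩ := (law_height 0).2
  refine ⟨min (δ / C) δ, by positivity, h2.mono fun X hX => ⟨?_, ?_⟩⟩
  · have h3 : 0 ≤ number (fun _ => True) X := Nat.cast_nonneg _
    calc min (δ / C) δ * number (fun _ => True) X ≤ δ / C * (C * (X : ℝ) ^ (1 / 6 : ℝ)) :=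
          mul_le_mul (min_le_left _ _) (h X).2 h3 (by positivity)
      _ = δ * (X : ℝ) ^ (1 / 6 : ℝ) := by field_simp
      _ ≤ _ := hX
  · exact (mul_le_mul_of_nonneg_right (min_le_right _ _) (by positivity)).trans hX

theorem prob_zero : prob 0 = Pool.Agent.NH5.PR.eta := by
  unfold prob Pool.Agent.NH5.PR.eta
  simp

end proof

/-- **Main theorem.** -/
theorem result :
    (∀ X : ℕ, {z : (ℤ × ℤ × ℤ) × ℤ | z ∈ Pairs ∧ height z ≤ X}.Finite) ∧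
    (∀ z ∈ Pairs, ∀ p : ℕ, p.Prime →
      ¬ ((p : ℤ) ^ 4 ∣ A z.1.1 z.1.2.1 z.2 ∧ (p : ℤ) ^ 6 ∣ B z.1.1 z.1.2.1 z.2)) ∧
    (∀ z ∈ Pairs, ∀ z' ∈ Pairs, curve z = curve z' → z = z') ∧
    (∃ δ : ℝ, 0 < δ ∧ ∀ᶠ X : ℕ in atTop,
      δ * number (fun _ => True) X ≤ number Cls X ∧ δ * (X : ℝ) ^ (1 / 6 : ℝ) ≤ number Cls X) ∧
    (∀ r : ℕ, Tendsto (fun X : ℕ =>
      number (fun z => Cls z ∧ selTwo (curve z) = 4 ^ r) X / number Cls X) atTop (𝓝 (prob r))) ∧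
    HasSum prob 1 ∧ (0.2887 < prob 0 ∧ prob 0 < 0.2888) ∧
    (∀ z ∈ Pairs, Cls z →
      (∀ (K : Type) [Field K] [NumberField K], Module.finrank ℚ K = 2 →
        (∃ x : K, x ^ 2 = (z.2 : K)) → Orders (curve z) (Nat.card (SqTwo K))) ∧
      (selTwo (curve z) = 1 ↔ ZeroSeq (curve z))) := by
  refine ⟨fun X => (all_le.choose_spec.2 X).1, fun z hz p hp => ?_, fun z hz z' hz' h => ?_, positive,
    fun r => (law_height r).1, Pool.Agent.NH3.XT.t_SUM, ?_, fun z hz hC => ?_⟩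
  · obtain ⟨g1, g2, g3, g4, g5, g6⟩ := hz
    exact Pool.Agent.NH3.XT.HT.t_MIN z.1 z.2 ⟨g1, g2, g3, g4.1, g4.2.1, g4.2.2.1⟩ g5 g6 p hp
  · obtain ⟨g1, g2, g3, g4, g5, g6⟩ := hz
    obtain ⟨k1, k2, k3, k4, k5, k6⟩ := hz'
    have e1 : ((A z.1.1 z.1.2.1 z.2 : ℤ) : ℚ) = ((A z'.1.1 z'.1.2.1 z'.2 : ℤ) : ℚ) :=
      congrArg WeierstrassCurve.a₄ h
    have e2 : ((B z.1.1 z.1.2.1 z.2 : ℤ) : ℚ) = ((B z'.1.1 z'.1.2.1 z'.2 : ℤ) : ℚ) :=
      congrArg WeierstrassCurve.a₆ h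
    obtain ⟨h1, h2⟩ := Pool.Agent.NH3.XT.HT.t_INJ z.1 z'.1 z.2 z'.2
      ⟨g1, g2, g3, g4.1, g4.2.1, g4.2.2.1⟩ ⟨k1, k2, k3, k4.1, k4.2.1, k4.2.2.1⟩ g5 k5
      (by exact_mod_cast e1) (by exact_mod_cast e2)
    exact Prod.ext h1 h2
  · rw [prob_zero]
    exact ⟨Pool.Agent.NH5.PR.t_ETA.2.2.2.1, Pool.Agent.NH5.PR.t_ETA.2.2.2.2⟩
  · exact part1 hz.2.2.2.1 ⟨z.2, 1, one_ne_zero, by ring, hC⟩

end Pool.Agent.Results.MP_a3f657_nt.EightCurvesByHeight
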