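import Pool.Agent.Results.MP_81dc49_nt.RanksPositiveTwistsByHeight
import Pool.Agent.NH3.XT.EpEqt
import Pool.Agent.NH3.XT.EpHalf
import Pool.Agent.NH3.XT.EpIso
import Pool.Agent.NH3.XT.EpLam
import Pool.Agent.NH3.XT.EpCrd
import Pool.Agent.NH3.XT.EpBij
import Pool.Agent.NH3.XT.EpHsy
import Pool.Agent.NH3.XT.EpTwo
import Pool.Agent.NH3.XT.EpSqc
import Pool.Agent.NH3.XT.EpRat
import Pool.Agent.NH3.XT.EpPow

/-!
# The `2 ^ ∞`-Selmer groups of the POSITIVE twists `y² = x (x - a² M) (x - b² M)`, `a² + c² = b²`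

The family of the hand-in `EightCurvesByHeight`: all the curves `E_{T,M} : y² = x (x - a² M) (x - b² M)`,
`T = (a, b, c)` any primitive Pythagorean triple, `M` any squarefree integer prime to `3`, ordered by the
naive height. There the law was proved for a class of `M < 0` (the property `Cls`); here `M > 0` satisfies the
same congruences (the property `ClsP`); the two classes have asymptotically the same number of curves up to
height `X`. Let `s` be the number of the elements of `Sel_{2 ^ ∞}` killed by `2`, `M > 0`.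

* For EVERY curve of the class `s = 2 ^ k`, `k` odd, and `s = 2 h²` or `s = h² / 2`, `h` the number of the ideal
  classes of `ℚ(√(-M))` of order at most `2` which are squares.
* In the order by height the distribution function of `s` is bounded from both sides: the proportion of
  `s ≤ 2 * 4 ^ R` is asymptotically between `c(0) + ... + c(R)` and `c(0) + ... + c(R + 1)`.
-/

set_option autoImplicit false

open Filter Topology

namespace Pool.Agent.Results.MP_a3f657_nt.SelmerPositiveTwistsByHeight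

open Pool.Agent.Results.MP_a3f657_nt.TwoSelmerLawPythagorean
open Pool.Agent.Results.MP_a3f657_nt.EightCurvesByHeight (Pairs curve height number Cls)
open Pool.Agent.Results.MP_81dc49_nt.RanksPositiveTwistsByHeight (InClassP ClsP)

/-- `Sel_{2 ^ ∞}(W)[2]` has `2 ^ k` elements, `k` odd -/
def OddDim (W : WeierstrassCurve ℚ) : Prop := ∃ k : ℕ, Odd k ∧ selTwo W = 2 ^ k

section proof

/-- the conditions modulo `8 a b c` -/
def Cond (a b c M : ℤ) : Prop :=
  (∀ p : ℕ, p.Prime → (p : ℤ) ∣ a * b → ¬ IsSquare ((-M : ℤ) : ZMod p)) ∧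
  (∀ p : ℕ, p.Prime → p ≠ 2 → (p : ℤ) ∣ c → ¬ IsSquare ((M : ℤ) : ZMod p)) ∧
  (8 ∣ c → M % 8 ≠ 1)

open Pool.Agent.NH3.XT
open Pool.Agent.NH3.XT.HT (ZZ half_ht t_SUMM t_HHB t_CARD t_TANN)
open Pool.Agent.NH4.XG (nx)
open Pool.Agent.Results.MP_81dc49_nt.RanksPositiveTwistsByHeight (clsp_iff sel_fin law_oneP num_eqP'
  positiveP fin_set number_sum number_mono law_heightP low prob_one)

theorem eqt : S_EQT := EQ.eqt EQ.t_ISO EQ.t_LAM EQ.t_CRD EQ.t_BIJ EQ.t_HSY EQ.t_TWO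

theorem pow_of_sq {n k : ℕ} (h : n ^ 2 = 2 ^ k) : Even k := by
  have h1 : n ∣ 2 ^ k := Dvd.intro n (by rw [← sq]; exact h)
  obtain ⟨i, -, rfl⟩ := (Nat.dvd_prime_pow Nat.prime_two).1 h1
  rw [← pow_mul] at h
  have h2 : i * 2 = k := Nat.pow_right_injective (le_refl 2) h
  exact ⟨i, by omega⟩

theorem as_sub {D : ℤ} (hs : Squarefree D) : AS (-D) ⊆ CSp D := by
  rintro d ⟨s1, s2, s3⟩
  refine ⟨s1, ?_, fun p hp hp2 => ⟨fun h => ?_, fun h => ?_⟩⟩
  · have h4 : D % 4 ≠ 0 := by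
      intro h
      have h1 : (2 : ℤ) * 2 ∣ D := by omega
      have h2 := hs 2 h1
      rw [Int.isUnit_iff] at h2
      omega
    unfold A2 at s2
    unfold C2
    omega
  · have h1 := (s3 p hp2).1 ((dvd_neg).2 h)
    unfold H1 at h1
    unfold H3
    rw [mul_neg] at h1
    exact h1
  · exact (s3 p hp2).2 fun h' => h ((dvd_neg).1 h')

/-- the positive twists -/
theorem odd_of {a b c D : ℤ} (hT : Triple a b c) (hD : InClassP a b c D) :
    OddDim (E a b D) ∧ 2 * selTwo (E a b D) ≤ nx D.natAbs.primeFactors ^ 2 ∧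
    nx D.natAbs.primeFactors ^ 2 ≤ 8 * selTwo (E a b D) := by
  obtain ⟨e, c', hc, hT'⟩ := t_PYT a b c hT.1 hT.2.1 hT.2.2.1 hT.2.2.2
  have hCl := (clsp_iff hT' hc D).1 hD
  obtain ⟨ha, hb, hc0, hab⟩ := tri_ne hT'
  obtain ⟨p1, p2, p3, p4⟩ :=
    Pool.Agent.Results.MP_81dc49_nt.RanksPositiveTwistsByHeight.point hT hD
  obtain ⟨s1, s2, s3⟩ := sel_fin hT' hCl
  obtain ⟨h1, h2, h3⟩ := ordersN ha hb hab hD.1.ne' ⟨s1, rfl⟩
  have hfin : Finite {x : Pool.Agent.Y667.BK.SelInf (E a b D) // x + x = 0} :=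
    Nat.finite_of_card_ne_zero (by
      have : 2 ≤ Nat.card {x : Pool.Agent.Y667.BK.SelInf (E a b D) // x + x = 0} := p1
      omega)
  obtain ⟨j, hj⟩ := EQ.t_POW _ hfin
  have hj' : selTwo (E a b D) = 2 ^ j := hj
  obtain ⟨f1, f2, f3⟩ := eqt D hCl.1 hCl.2.1
  have hsel : (Sel (b ^ 2 * D) (a ^ 2 * D)).ncard = 2 * (ASp D).ncard ^ 2 := by
    rw [t_SELP t_TOR t_LA t_LG (t_LP1 t_TOR) (t_LP2 t_TOR) (t_LP3 t_TOR)
      (t_L2R t_APX t_SQ2 t_J2a t_J2b t_J2c) t_L22a t_L22b t_L22c t_LRP a b c' e hT' D hCl,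
      Set.ncard_prod, f3]
    ring
  have h3' : 4 * selTwo (E a b D) = 2 * (ASp D).ncard ^ 2 := by
    rw [← hsel]
    exact h3
  have h5 : (ASp D).ncard ^ 2 = 2 ^ (j + 1) := by
    rw [hj'] at h3'
    have h8 : 2 ^ (j + 1) = 2 * 2 ^ j := by ring
    rw [h8]
    omega
  have hs' : Squarefree (-D) := by
    rw [← Int.squarefree_natAbs, Int.natAbs_neg, Int.squarefree_natAbs]
    exact hCl.2.1
  have h0 : 0 < D := hCl.1
  obtain ⟨⟨a1, a2⟩, -⟩ := card_fac (by linarith : -D < 0) hs'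
  rw [Int.natAbs_neg] at a2
  have h6 : nx D.natAbs.primeFactors ≤ 2 * (ASp D).ncard := by
    rw [← a2, ← f3]
    exact Set.ncard_le_ncard (as_sub hCl.2.1) f2
  refine ⟨⟨j, ?_, hj'⟩, p4, ?_⟩
  · have h7 := pow_of_sq h5
    rw [Nat.even_add_one, Nat.not_even_iff_odd] at h7
    exact h7
  · calc nx D.natAbs.primeFactors ^ 2 ≤ (2 * (ASp D).ncard) ^ 2 := Nat.pow_le_pow_left h6 2
      _ = 2 * (2 * (ASp D).ncard ^ 2) := by ring
      _ = 8 * selTwo (E a b D) := by rw [← h3']; ring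

/-- the conditions depend only on the residue class modulo `8 a b c` -/
theorem cond_per {a b c D D' : ℤ} (h : D ≡ D' [ZMOD (8 * a * b * c).natAbs])
    (hD : Cond a b c D) : Cond a b c D' := by
  have hdv : 8 * a * b * c ∣ D' - D := Int.natAbs_dvd.1 h.dvd
  have key : ∀ p : ℕ, (p : ℤ) ∣ 8 * a * b * c → ((D' : ℤ) : ZMod p) = ((D : ℤ) : ZMod p) := by
    intro p hp
    exact ((ZMod.intCast_eq_intCast_iff_dvd_sub D D' p).2 (hp.trans hdv)).symm
  obtain ⟨h1, h2, h3⟩ := hD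
  refine ⟨fun p hp hpd => ?_, fun p hp hp2 hpc => ?_, fun h8 => ?_⟩
  · have h4 := key p (by
      rw [mul_assoc 8 a b]
      exact (hpd.mul_left 8).mul_right c)
    have h5 := h1 p hp hpd
    push_cast at h5 ⊢
    rw [h4]
    exact h5
  · rw [key p (hpc.mul_left _)]
    exact h2 p hp hp2 hpc
  · have h4 : (8 : ℤ) ∣ D' - D := (Dvd.dvd.mul_right (Dvd.intro _ (mul_assoc 8 a b).symm) c).trans hdv
    have h5 := h3 h8
    omega

theorem diff {a b c : ℤ} (hT : Triple a b c) : Tendsto (fun Y : ℕ =>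
    (HT.cneg (fun M => InClass a b c M) Y - HT.cneg (fun M => InClassP a b c (-M)) Y) / Y) atTop
    (𝓝 0) := by
  classical
  obtain ⟨e, c', hc, hT'⟩ := t_PYT a b c hT.1 hT.2.1 hT.2.2.1 hT.2.2.2
  obtain ⟨ha, hb, hc0, hab⟩ := tri_ne hT'
  have hq : 0 < (8 * a * b * c).natAbs :=
    Int.natAbs_pos.2 (mul_ne_zero (mul_ne_zero (mul_ne_zero (by norm_num) ha) hb) hT.2.2.2)
  have h := EQ.t_RAT EQ.t_SQC (8 * a * b * c).natAbs (Cond a b c) hq
    fun D D' h => ⟨cond_per h, cond_per h.symm⟩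
  have e1 : ∀ Y : ℕ, EQ.cneg (Cond a b c) Y = HT.cneg (fun M => InClass a b c M) Y := by
    intro Y
    unfold EQ.cneg HT.cneg
    refine congrArg (fun s : Finset ℤ => ((s.card : ℕ) : ℝ)) (Finset.ext fun D => ?_)
    rw [Finset.mem_filter, Finset.mem_filter]
    refine and_congr_right fun hD => and_congr_right fun hs => ?_
    rw [Finset.mem_Icc] at hD
    exact ⟨fun h => ⟨by omega, hs, h⟩, fun h => h.2.2⟩
  have e2 : ∀ Y : ℕ, EQ.cneg (fun D => Cond a b c (-D)) Y =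
      HT.cneg (fun M => InClassP a b c (-M)) Y := by
    intro Y
    unfold EQ.cneg HT.cneg
    refine congrArg (fun s : Finset ℤ => ((s.card : ℕ) : ℝ)) (Finset.ext fun D => ?_)
    rw [Finset.mem_filter, Finset.mem_filter]
    refine and_congr_right fun hD => and_congr_right fun hs => ?_
    rw [Finset.mem_Icc] at hD
    refine ⟨fun h => ⟨by omega, ?_, h⟩, fun h => h.2.2⟩
    rw [← Int.squarefree_natAbs, Int.natAbs_neg, Int.squarefree_natAbs]
    exact hs
  refine h.congr fun Y => ?_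
  rw [e1, e2]

theorem half_num : Tendsto (fun X : ℕ => number ClsP X / (number ClsP X + number Cls X)) atTop
    (𝓝 (1 / 2)) := by
  have h := half_ht t_SUMM t_HHB t_CARD t_TANN
    (Q := fun t M => InClass t.1 t.2.1 t.2.2 M) (Q' := fun t M => InClassP t.1 t.2.1 t.2.2 (-M))
    (fun t => diff ⟨t.2.2.2.2.1, t.2.2.2.2.2.1, t.2.2.2.2.2.2, t.2.2.2.1.ne'⟩)
    (fun t => (law_oneP ⟨t.2.2.2.2.1, t.2.2.2.2.2.1, t.2.2.2.2.2.2, t.2.2.2.1.ne'⟩ 0).2)
  simp only [Pool.Agent.Results.MP_a3f657_nt.EightCurvesByHeight.num_eq', num_eqP']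
  exact h

/-- the upper bound for the distribution function -/
theorem upp (R : ℕ) {ε : ℝ} (hε : 0 < ε) : ∀ᶠ X : ℕ in atTop,
    number (fun z => ClsP z ∧ selTwo (curve z) ≤ 2 * 4 ^ R) X ≤
      (∑ r ∈ Finset.range (R + 2), prob r + ε) * number ClsP X := by
  have hs : HasSum prob 1 := Pool.Agent.NH3.XT.t_SUM
  obtain ⟨N, hN⟩ := ((hs.tendsto_sum_nat).eventually (lt_mem_nhds
    (show (1 : ℝ) - ε / 3 < 1 by linarith))).exists
  have key : ∀ n : ℕ, Tendsto (fun X : ℕ => number (fun z => ClsP z ∧ ∃ r < n,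
      nx z.2.natAbs.primeFactors = 2 ^ (r + 1)) X / number ClsP X) atTop
      (𝓝 (∑ r ∈ Finset.range n, prob r)) := by
    intro n
    have h1 : Tendsto (fun X : ℕ => ∑ r ∈ Finset.range n,
        number (fun z => ClsP z ∧ nx z.2.natAbs.primeFactors = 2 ^ (r + 1)) X / number ClsP X) atTop
        (𝓝 (∑ r ∈ Finset.range n, prob r)) :=
      tendsto_finsetSum _ fun r _ => (law_heightP r).1
    refine h1.congr fun X => ?_
    rw [← Finset.sum_div, number_sum]
  have k1 := (key N).eventually (lt_mem_nhds (show ∑ r ∈ Finset.range N, prob r - ε / 3 <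
    ∑ r ∈ Finset.range N, prob r by linarith))
  have k2 := (key (R + 2)).eventually (gt_mem_nhds (show ∑ r ∈ Finset.range (R + 2), prob r <
    ∑ r ∈ Finset.range (R + 2), prob r + ε / 3 by linarith))
  obtain ⟨δ, hδ, h3⟩ := positiveP
  filter_upwards [k1, k2, h3, eventually_ge_atTop 1] with X hX1 hX2 hX3 hX4
  have hX0 : (0 : ℝ) < (X : ℝ) ^ (1 / 6 : ℝ) := Real.rpow_pos_of_pos (by exact_mod_cast hX4) _
  have h4 : 0 < number ClsP X := lt_of_lt_of_le (mul_pos hδ hX0) hX3.2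
  rw [lt_div_iff₀ h4] at hX1
  rw [div_lt_iff₀ h4] at hX2
  have h5 : number (fun z => ClsP z ∧ selTwo (curve z) ≤ 2 * 4 ^ R) X +
      number (fun z => ClsP z ∧ ∃ r < N, nx z.2.natAbs.primeFactors = 2 ^ (r + 1)) X ≤
      number ClsP X + number (fun z => ClsP z ∧ ∃ r < R + 2,
        nx z.2.natAbs.primeFactors = 2 ^ (r + 1)) X := by
    unfold number
    rw [← Nat.cast_add, ← Nat.cast_add, ← Set.ncard_union_add_ncard_inter _ _ (fin_set _ X)
      (fin_set _ X)]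
    refine Nat.cast_le.2 (Nat.add_le_add (Set.ncard_le_ncard ?_ (fin_set _ X))
      (Set.ncard_le_ncard ?_ (fin_set _ X)))
    · rintro z (⟨h1, h2, h3, -⟩ | ⟨h1, h2, h3, -⟩) <;> exact ⟨h1, h2, h3⟩
    · rintro z ⟨⟨h1, h2, h3, h6⟩, ⟨-, -, -, r, hr, h7⟩⟩
      refine ⟨h1, h2, h3, r, ?_, h7⟩
      by_contra hcon
      have h8 := (odd_of h1.2.2.2.1 h3).2.2
      rw [h7] at h8
      have h9 : (2 ^ (r + 1)) ^ 2 = 4 * 4 ^ r := by
        rw [show (4 : ℕ) = 2 ^ 2 by norm_num, ← pow_mul, ← pow_mul, ← pow_add]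
        congr 1
        ring
      have h10 : (4 : ℕ) ^ (R + 2) ≤ 4 ^ r := Nat.pow_le_pow_right (by norm_num) (by omega)
      have h11 : (4 : ℕ) ^ (R + 2) = 16 * 4 ^ R := by ring
      have h12 : 0 < (4 : ℕ) ^ R := by positivity
      have h13 : selTwo (E z.1.1 z.1.2.1 z.2) ≤ 2 * 4 ^ R := h6
      rw [h9] at h8
      omega
  have h6 : (1 - ε / 3) * number ClsP X ≤ (∑ r ∈ Finset.range N, prob r) * number ClsP X :=
    mul_le_mul_of_nonneg_right hN.le h4.le
  nlinarith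

theorem low' (R : ℕ) {ε : ℝ} (hε : 0 < ε) : ∀ᶠ X : ℕ in atTop,
    (∑ r ∈ Finset.range (R + 1), prob r - ε) * number ClsP X ≤
      number (fun z => ClsP z ∧ selTwo (curve z) ≤ 2 * 4 ^ R) X := by
  refine (low R hε).mono fun X hX => hX.trans ?_
  exact number_mono (fun z _ h => ⟨h.1, h.2.2.1⟩) X

/-- the classes of order at most two which are squares -/
theorem sq_pow (K : Type) [Field K] [NumberField K] : ∃ i : ℕ, Nat.card (SqTwo K) = 2 ^ i := by
  let C := ClassGroup (NumberField.RingOfIntegers K)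
  let H : Subgroup C := (powMonoidHom 2 : C →* C).range
  have hfin : Finite {x : Additive H // x + x = 0} := Subtype.finite
  obtain ⟨i, hi⟩ := EQ.t_POW (Additive H) hfin
  refine ⟨i, ?_⟩
  rw [← hi]
  refine Nat.card_congr
    { toFun := fun c => ⟨Additive.ofMul ⟨c.1, by
        obtain ⟨b, hb⟩ := c.2.2
        exact ⟨b, hb⟩⟩, ?_⟩
      invFun := fun x => ⟨(Additive.toMul x.1).1, ?_, ?_⟩
      left_inv := fun c => rfl
      right_inv := fun x => rfl }
  · refine Additive.toMul.injective (Subtype.ext ?_)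
    show c.1 * c.1 = 1
    rw [← sq]
    exact c.2.1
  · have h1 := congrArg (fun y : Additive H => ((Additive.toMul y : H) : C)) x.2
    rw [sq]
    exact h1
  · obtain ⟨b, hb⟩ := (Additive.toMul x.1).2
    exact ⟨b, hb⟩

/-- an odd power of two between two squares -/
theorem two_cases {s h : ℕ} (hs : ∃ k : ℕ, Odd k ∧ s = 2 ^ k) (hh : ∃ i : ℕ, h = 2 ^ i)
    (h1 : h ^ 2 ≤ 2 * s) (h2 : s ≤ 2 * h ^ 2) : s = 2 * h ^ 2 ∨ 2 * s = h ^ 2 := by
  obtain ⟨k, ⟨l, rfl⟩, rfl⟩ := hs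
  obtain ⟨i, rfl⟩ := hh
  have e1 : 2 * 2 ^ (2 * l + 1) = 2 ^ (2 * l + 2) := by ring
  have e2 : ((2 : ℕ) ^ i) ^ 2 = 2 ^ (2 * i) := by rw [← pow_mul, mul_comm]
  have e3 : 2 * (2 : ℕ) ^ (2 * i) = 2 ^ (2 * i + 1) := by ring
  rw [e2, e1] at h1
  rw [e2, e3] at h2
  rw [e1, e2, e3]
  have h3 := (Nat.pow_le_pow_iff_right (by norm_num : 1 < 2)).1 h1
  have h4 := (Nat.pow_le_pow_iff_right (by norm_num : 1 < 2)).1 h2
  have h5 : l = i ∨ l + 1 = i := by omega
  rcases h5 with rfl | rfl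
  · exact Or.inl rfl
  · exact Or.inr (by congr 1)

/-- the lower bound in terms of the ideal classes -/
theorem low_field {a b c D : ℤ} (hT : Triple a b c) (hD : InClassP a b c D)
    (K : Type) [Field K] [NumberField K] (hK : Module.finrank ℚ K = 2)
    (hx : ∃ x : K, x ^ 2 = ((-D : ℤ) : K)) : Nat.card (SqTwo K) ^ 2 ≤ 2 * selTwo (E a b D) := by
  obtain ⟨e, c', hc, hT'⟩ := t_PYT a b c hT.1 hT.2.1 hT.2.2.1 hT.2.2.2
  obtain ⟨n1, n3⟩ := nep_small hT' ((clsp_iff hT' hc D).1 hD)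
  have hs' : Squarefree (-D) := by
    rw [← Int.squarefree_natAbs, Int.natAbs_neg, Int.squarefree_natAbs]
    exact hD.2.1
  have h0 := hD.1
  have h4 := four_rank Pool.Agent.NH3.XS.t_R4 (by linarith : -D < 0) hs' (by omega) (by omega) K hK hx
  rw [Int.natAbs_neg] at h4
  have h5 := (odd_of hT hD).2.2
  rw [← h4] at h5
  have h6 : (2 * Nat.card (SqTwo K)) ^ 2 ≤ 8 * selTwo (E a b D) := h5
  have h7 : (2 * Nat.card (SqTwo K)) ^ 2 = 4 * Nat.card (SqTwo K) ^ 2 := by ring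
  omega

end proof

/-- **Main theorem.** -/
theorem result :
    (∃ δ : ℝ, 0 < δ ∧ ∀ᶠ X : ℕ in atTop,
      δ * number (fun _ => True) X ≤ number ClsP X ∧ δ * (X : ℝ) ^ (1 / 6 : ℝ) ≤ number ClsP X) ∧
    Tendsto (fun X : ℕ => number ClsP X / (number ClsP X + number Cls X)) atTop (𝓝 (1 / 2)) ∧
    (∀ z ∈ Pairs, ClsP z → OddDim (curve z) ∧
      ∀ (K : Type) [Field K] [NumberField K], Module.finrank ℚ K = 2 →
        (∃ x : K, x ^ 2 = ((-z.2 : ℤ) : K)) →
        selTwo (curve z) = 2 * Nat.card (SqTwo K) ^ 2 ∨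
          2 * selTwo (curve z) = Nat.card (SqTwo K) ^ 2) ∧
    (∀ (R : ℕ) (ε : ℝ), 0 < ε → ∀ᶠ X : ℕ in atTop,
      (∑ r ∈ Finset.range (R + 1), prob r - ε) * number ClsP X ≤
        number (fun z => ClsP z ∧ selTwo (curve z) ≤ 2 * 4 ^ R) X ∧
      number (fun z => ClsP z ∧ selTwo (curve z) ≤ 2 * 4 ^ R) X ≤
        (∑ r ∈ Finset.range (R + 2), prob r + ε) * number ClsP X) ∧
    HasSum prob 1 ∧ (0.2887 < prob 0 ∧ prob 0 < 0.2888 ∧ prob 1 = 2 * prob 0) := by
  refine ⟨Pool.Agent.Results.MP_81dc49_nt.RanksPositiveTwistsByHeight.positiveP, half_num, fun z hz hC => ⟨(odd_of hz.2.2.2.1 hC).1, fun K _ _ hK hx => ?_⟩,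
    fun R ε hε => ?_, Pool.Agent.NH3.XT.t_SUM, ?_, ?_,
    Pool.Agent.Results.MP_81dc49_nt.RanksPositiveTwistsByHeight.prob_one⟩
  · exact two_cases (odd_of hz.2.2.2.1 hC).1 (sq_pow K) (low_field hz.2.2.2.1 hC K hK hx)
      (Pool.Agent.Results.MP_81dc49_nt.RanksPositiveTwistsByHeight.point_field
        hz.2.2.2.1 hC K hK hx)
  · filter_upwards [low' R hε, upp R hε] with X h1 h2
    exact ⟨h1, h2⟩
  · rw [Pool.Agent.Results.MP_a3f657_nt.EightCurvesByHeight.prob_zero]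
    exact Pool.Agent.NH5.PR.t_ETA.2.2.2.1
  · rw [Pool.Agent.Results.MP_a3f657_nt.EightCurvesByHeight.prob_zero]
    exact Pool.Agent.NH5.PR.t_ETA.2.2.2.2

end Pool.Agent.Results.MP_a3f657_nt.SelmerPositiveTwistsByHeight
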