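import Pool.Agent.NH3.FK.Gr49
import Pool.Agent.Y356.CQ.EQ
import Pool.Agent.R413.SQ.Weak
import Pool.Agent.R413.SJ.ShaQ
import Pool.Agent.Y687.JQ.Sha
import Pool.Agent.Y687.MQ.Fin
import Pool.Agent.Y703.CQ.Cor
import Pool.Agent.NH3.FK.Sel49

/-!
# The `2 ^ ∞`-Selmer groups of all the twists by subproducts of the primes of a tuple from arbitrary
# sparse sets, for two curves at the same time

Let `P_1, …, P_n` be ARBITRARY sets of prime numbers `≤ X` which are `1` modulo `8` and split in `ℚ(√-7)`,
each of them with at least `X ^ (2/3 + ε)` elements. For a tuple of different primes `p_i ∈ P_i` consider the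
`2 ^ (n + 1)` twists by the products `∏_{i ∈ T} p_i`, `T ⊆ {1, …, n}`, of the non-CM curve `X_0(14)` and of the CM
curve `X_0(49)`.

For each of them the sequence `0 → E(ℚ) ⊗ ℚ₂/ℤ₂ → Sel_{2 ^ ∞}(E) → Ш(E)[2 ^ ∞] → 0` is zero if and only if
a matrix over `𝔽₂` is not singular. The matrix depends only on the graph of the pairs `{i, j}` with `p_i` a
quadratic nonresidue modulo `p_j` and on the labels of the primes (whether `8` divides the number of the
points of `X_0(14)` modulo `p_i`; whether `-7` is a fourth power modulo `p_i`).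

We show that the graph is uniformly distributed among all graphs with `n` labelled vertices, jointly with
the labels, up to a relative error `C X ^ (-ε / 2)`, `C` depending only on `n` and `ε`; this gives the joint
distribution of the `2 ^ (n + 1)` events, for all such sets `P_i`. In particular, all the `2 ^ (n + 1)`
curves have the property if and only if all the labels are `1` and no `p_i` has two nonresidues among the
others; so the number of these tuples is the number of the involutions of `n` objects divided by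
`2 ^ (n (n - 1) / 2)`, times the number of the tuples with all labels `1`, up to the same error.

Proof: the two criteria (project MQ for `X_0(14)`; helper428 and helper413 for `X_0(49)`); bilinear sums of
quadratic symbols over arbitrary sets of primes (`Pool/Agent/NH3/FK/Bil`); all colourings of the union of
the sets by the indices, to reduce to boxes (`Pool/Agent/NH3/FK/Gr`). The matrices of the subsets are
from `Pool/Agent/R338/EQ/SymMat` (`MP_03e5d0_nt/AllSubproducts`: one curve, and the tuples `p_i ≤ X_i` of all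
primes of given classes modulo `56`).
-/

set_option autoImplicit false

open Finset

namespace Pool.Agent.Results.MP_a3f657_nt.SparseGraphs

/-- the coefficient `a` of the twist `y² = x³ + a x + b` by `N` of `X_0(49)` (`c = true`) and of
`X_0(14)` (`c = false`) -/
def A (c : Bool) (N : ℤ) : ℤ := if c = true then -35 * N ^ 2 else 5805 * N ^ 2

/-- the coefficient `b` of the twist `y² = x³ + a x + b` by `N` of `X_0(49)` (`c = true`) and of
`X_0(14)` (`c = false`) -/
def B (c : Bool) (N : ℤ) : ℤ := if c = true then -98 * N ^ 3 else -285714 * N ^ 3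

/-- the twist by `N` over `ℚ` -/
def E (c : Bool) (N : ℤ) : WeierstrassCurve ℚ :=
  { a₁ := 0, a₂ := 0, a₃ := 0, a₄ := (A c N : ℚ), a₆ := (B c N : ℚ) }

open Pool.Agent.TH841.SH.D (Sha Pruf) in
/-- all the terms of the sequence `0 → E_N(ℚ) ⊗ ℚ₂/ℤ₂ → Sel_{2 ^ ∞}(E_N) → Ш(E_N)[2 ^ ∞] → 0` are
zero -/
def ZeroSeq (c : Bool) (N : ℤ) : Prop :=
  (∀ x : TensorProduct ℤ (E c N).toAffine.Point Pruf, x = 0) ∧
    (∀ x : Pool.Agent.Y17.X.SI.SelInf (E c N), x = 0) ∧
    ∀ (k : ℕ) (x : Sha (E c N)), (2 ^ k : ℕ) • x = 0 → x = 0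

/-- the primes `1` modulo `8` which split in `ℚ(√-7)` -/
def Split (p : ℕ) : Prop := p.Prime ∧ p % 8 = 1 ∧ (p % 7 = 1 ∨ p % 7 = 2 ∨ p % 7 = 4)

/-- `8` divides the number of the points of `X_0(14)` modulo `p` -/
def Eight (p : ℕ) : Prop :=
  8 ∣ Nat.card {q : ZMod p × ZMod p // q.2 ^ 2 = q.1 ^ 3 + 5805 * q.1 - 285714} + 1

/-- `-7` is a fourth power modulo `p` -/
def Fourth (p : ℕ) : Prop := ∃ y : ZMod p, y ^ 4 = -7

open Classical in
/-- the label of the prime `p`: for `X_0(14)` (`c = false`) it is `0` if `8` divides the number of the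
points modulo `p`, for `X_0(49)` (`c = true`) it is `0` if `-7` is a fourth power modulo `p`, and it is `1`
otherwise -/
noncomputable def label (c : Bool) (p : ℕ) : ZMod 2 :=
  if c = true then (if Fourth p then 0 else 1) else if Eight p then 0 else 1

open Classical in
/-- the tuples of different primes, the `i`-th one in `P i` -/
noncomputable def Tuples {n : ℕ} (P : Fin n → Finset ℕ) : Finset (Fin n → ℕ) :=
  (Fintype.piFinset P).filter Function.Injective

/-- the graph of the pairs of mutual quadratic nonresidues -/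
def graph {n : ℕ} (p : Fin n → ℕ) : SimpleGraph (Fin n) :=
  SimpleGraph.fromRel fun i j => ¬ IsSquare ((p j : ℕ) : ZMod (p i))

open Classical in
/-- the matrix over `𝔽₂` of the subgraph of `G` induced on `T`: the adjacency matrix plus the diagonal
matrix of the degrees (in the induced subgraph) and of the numbers `v i` -/
noncomputable def mat {n : ℕ} (G : SimpleGraph (Fin n)) (v : Fin n → ZMod 2)
    (T : Finset (Fin n)) : Matrix T T (ZMod 2) := Matrix.of fun i j =>
  if i = j then ((T.filter fun l => G.Adj i l).card : ZMod 2) + v i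
  else if G.Adj (i : Fin n) j then 1 else 0

/-- the product of the primes `p_i`, `i ∈ T` -/
def sub {n : ℕ} (p : Fin n → ℕ) (T : Finset (Fin n)) : ℤ := ((∏ i ∈ T, p i : ℕ) : ℤ)

/-- the proportion of the graphs with the property `Q` among all graphs with vertices `1, …, n` -/
noncomputable def prob {n : ℕ} (Q : SimpleGraph (Fin n) → Prop) : ℝ :=
  (Nat.card {G : SimpleGraph (Fin n) // Q G} : ℝ) / Nat.card (SimpleGraph (Fin n))

open Classical in
/-- every vertex has at most one neighbour -/
def Matching {n : ℕ} (G : SimpleGraph (Fin n)) : Prop :=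
  ∀ i, (univ.filter fun j => G.Adj i j).card ≤ 1

/-- `P_1, …, P_n` consist of primes `≤ X`, `1` modulo `8` and split in `ℚ(√-7)`, and each has at
least `X ^ θ` elements -/
def Sparse (θ : ℝ) {n : ℕ} (X : ℕ) (P : Fin n → Finset ℕ) : Prop :=
  1 ≤ X ∧ (∀ i, ∀ p ∈ P i, p ≤ X ∧ Split p) ∧ ∀ i, (X : ℝ) ^ θ ≤ ((P i).card : ℝ)

section proof

open Pool.Agent.Y703.CQ (ff)
open Pool.Agent.Y687.MQ (AdmD matD)
open Pool.Agent.Y687 (NN)
open Pool.Agent.Results.MP_4a9ea6_nt.TwoPartTwistsX49 (Adm nonfourth)
open Pool.Agent.NH3.FK.Gr (Spl Tup)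

/-- the criterion for `X_0(14)` -/
theorem crit14 {D : ℤ} (h : AdmD D) : (ZeroSeq false D ↔ (matD D).det ≠ 0) ∧
    (ZeroSeq false D ↔ ∀ x : Pool.Agent.Y17.X.SI.SelInf (E false D), x = 0) := by
  have e : E false D = Pool.Agent.Z702.sh (5805 * D ^ 2) (-285714 * D ^ 3) := by
    unfold E A B Pool.Agent.Z702.sh
    simp
  have hD : D ≠ 0 := h.1.ne_zero
  rw [← Pool.Agent.Y687.JQ.rzs_iff h]
  have h1 := Pool.Agent.Y17.X.SI.zeroSeq_ed hD
  have h2 := Pool.Agent.Y17.X.SI.selInf_ed hD
  unfold ZeroSeq Pool.Agent.Y687.JQ.RZS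
  unfold Pool.Agent.Y17.X.SI.ZeroSeq at h1
  rw [e]
  exact ⟨h1.trans h2, h1⟩

/-- the criterion for `X_0(49)` -/
theorem crit49 {D : ℕ} (h : Adm D) : (ZeroSeq true (D : ℤ) ↔ (Pool.Agent.Results.MP_4a9ea6_nt.TwoPartTwistsX49.mat D).det ≠ 0) ∧
    (ZeroSeq true (D : ℤ) ↔ ∀ x : Pool.Agent.Y17.X.SI.SelInf (E true (D : ℤ)), x = 0) := by
  have e : E true (D : ℤ) = Pool.Agent.Z702.sh (-35 * (D : ℤ) ^ 2) (-98 * (D : ℤ) ^ 3) := by
    unfold E A B Pool.Agent.Z702.sh
    simp
  have e' : Pool.Agent.R413.SQ.Cor.ES D =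
      Pool.Agent.Z702.sh (-35 * (D : ℤ) ^ 2) (-98 * (D : ℤ) ^ 3) := by
    unfold Pool.Agent.R413.SQ.Cor.ES Pool.Agent.R413.SQ.Cor.a Pool.Agent.R413.SQ.Cor.b
      Pool.Agent.Z702.sh
    simp
  have hD : (D : ℤ) ≠ 0 := by exact_mod_cast h.1.ne_zero
  have h0 := Pool.Agent.R413.SQ.Cor.crit h
  rw [e', ← Pool.Agent.R413.SJ.ShaQ.two_iff] at h0
  have h1 := Pool.Agent.NH3.FK.Sel.zeroSeq_cm hD
  have h2 := Pool.Agent.NH3.FK.Sel.selInf_cm hD
  simp only [two_nsmul] at h0
  unfold ZeroSeq
  unfold Pool.Agent.Y17.X.SI.ZeroSeq at h1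
  rw [e]
  exact ⟨(h1.trans h2).trans h0, h1⟩

theorem eight_iff (p : ℕ) : Eight p ↔ 8 ∣ NN 1 p := by
  have h1 : NN 1 p = Nat.card {q : ZMod p × ZMod p //
      q.2 ^ 2 = q.1 ^ 3 + 5805 * q.1 - 285714} + 1 := by
    unfold Pool.Agent.Y687.NN
    congr 1
    refine Nat.card_congr (Equiv.subtypeEquivRight fun q => ?_)
    push_cast
    constructor
    · intro h
      rw [h]
      ring
    · intro h
      rw [h]
      ring
  unfold Eight
  rw [h1]

theorem label_false (p : ℕ) : label false p = ff p := by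
  unfold label ff
  rw [if_neg (by decide)]
  by_cases h : Eight p
  · rw [if_pos h, if_pos ((eight_iff p).1 h)]
  · rw [if_neg h, if_neg fun h' => h ((eight_iff p).2 h')]

theorem label_true (p : ℕ) : label true p = nonfourth p := by
  unfold label nonfourth Fourth
  rw [if_pos rfl]

/-- the criterion for all the subsets -/
theorem criterion {n : ℕ} {p : Fin n → ℕ} (hp : ∀ i, Split (p i)) (hi : Function.Injective p)
    (c : Bool) (T : Finset (Fin n)) :
    (ZeroSeq c (sub p T) ↔ (mat (graph p) (fun i => label c (p i)) T).det ≠ 0) ∧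
      (ZeroSeq c (sub p T) ↔ ∀ x : Pool.Agent.Y17.X.SI.SelInf (E c (sub p T)), x = 0) := by
  cases c
  · have h1 := Pool.Agent.NH3.FK.Gr.adm14 hp hi T
    have h2 := Pool.Agent.NH3.FK.Gr.det14 hp hi T
    have h3 : ZeroSeq false (sub p T) ↔
        (mat (graph p) (fun i => label false (p i)) T).det ≠ 0 := by
      simp only [label_false]
      exact (crit14 h1).1.trans h2
    exact ⟨h3, (crit14 h1).2⟩
  · have h1 := Pool.Agent.NH3.FK.Gr.adm49 hp hi T
    have h2 := Pool.Agent.NH3.FK.Gr.det49 hp hi T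
    have h3 : ZeroSeq true (sub p T) ↔
        (mat (graph p) (fun i => label true (p i)) T).det ≠ 0 := by
      simp only [label_true]
      exact (crit49 h1).1.trans h2
    exact ⟨h3, (crit49 h1).2⟩

open Classical in
/-- the law for all properties of the graph and of the labels -/
theorem law {n : ℕ} (hn : 0 < n) {ε : ℝ} (hε : 0 ≤ ε)
    (Q : SimpleGraph (Fin n) → (Bool → Fin n → ZMod 2) → Prop) : ∃ C : ℝ, 0 < C ∧
    ∀ (X : ℕ) (P : Fin n → Finset ℕ), Sparse (2 / 3 + ε) X P →
      |(((Tuples P).filter fun p => Q (graph p) fun c i => label c (p i)).card : ℝ) -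
        ∑ p ∈ Tuples P, prob fun G => Q G fun c i => label c (p i)| ≤
      C * (X : ℝ) ^ (-(ε / 2)) * ((Tuples P).card : ℝ) := by
  obtain ⟨C, hC, h⟩ := Pool.Agent.NH3.FK.Gr.graph_sparse Pool.Agent.Y356.CQ.t_EQ hn
    (L := Bool → ZMod 2) hε fun G v => Q G fun c i => v i c
  refine ⟨C, hC, fun X P hP => ?_⟩
  have key := h (fun p c => label c p) X P hP.1 (fun i p hp => by
    obtain ⟨h1, h2, h3, h4⟩ := hP.2.1 i p hp
    exact ⟨h1, h2, by omega⟩) hP.2.2
  exact key

end proof

open Classical in
/-- **The `2 ^ ∞`-Selmer groups of all the `2 ^ (n + 1)` twists by subproducts of the primes of a tuple from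
arbitrary sparse sets, for `X_0(14)` and for `X_0(49)`.** -/
theorem result (n : ℕ) (hn : 0 < n) (ε : ℝ) (hε : 0 ≤ ε) :
    -- the criterion for every tuple, both curves and every subset
    (∀ p : Fin n → ℕ, (∀ i, Split (p i)) → Function.Injective p →
      ∀ (c : Bool) (T : Finset (Fin n)),
        (ZeroSeq c (sub p T) ↔ (mat (graph p) (fun i => label c (p i)) T).det ≠ 0) ∧
        (ZeroSeq c (sub p T) ↔ ∀ x : Pool.Agent.Y17.X.SI.SelInf (E c (sub p T)), x = 0)) ∧
    -- the graph is uniformly distributed, jointly with the labels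
    (∀ Q : SimpleGraph (Fin n) → (Bool → Fin n → ZMod 2) → Prop,
      ∃ C : ℝ, ∀ (X : ℕ) (P : Fin n → Finset ℕ), Sparse (2 / 3 + ε) X P →
      |(((Tuples P).filter fun p => Q (graph p) fun c i => label c (p i)).card : ℝ) -
        ∑ p ∈ Tuples P, prob fun G => Q G fun c i => label c (p i)| ≤
      C * (X : ℝ) ^ (-(ε / 2)) * ((Tuples P).card : ℝ)) ∧
    -- the joint distribution of the events for both curves and all subsets
    (∀ V : Finset (Bool × Finset (Fin n)),
      ∃ C : ℝ, ∀ (X : ℕ) (P : Fin n → Finset ℕ), Sparse (2 / 3 + ε) X P →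
      |(((Tuples P).filter fun p => ∀ c T, ZeroSeq c (sub p T) ↔ (c, T) ∈ V).card : ℝ) -
        ∑ p ∈ Tuples P, prob fun G =>
          ∀ c T, (mat G (fun i => label c (p i)) T).det ≠ 0 ↔ (c, T) ∈ V| ≤
      C * (X : ℝ) ^ (-(ε / 2)) * ((Tuples P).card : ℝ)) ∧
    -- all the curves
    ∃ C : ℝ, ∀ (X : ℕ) (P : Fin n → Finset ℕ), Sparse (2 / 3 + ε) X P →
      |(((Tuples P).filter fun p => ∀ c T, ZeroSeq c (sub p T)).card : ℝ) -
        prob (Matching (n := n)) *
          (((Tuples P).filter fun p => ∀ i, ¬ Eight (p i) ∧ ¬ Fourth (p i)).card : ℝ)| ≤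
      C * (X : ℝ) ^ (-(ε / 2)) * ((Tuples P).card : ℝ) := by
  have hmem : ∀ {X : ℕ} {P : Fin n → Finset ℕ}, Sparse (2 / 3 + ε) X P → ∀ p ∈ Tuples P,
      (∀ i, Split (p i)) ∧ Function.Injective p := by
    intro X P hP p hp
    unfold Tuples at hp
    rw [mem_filter, Fintype.mem_piFinset] at hp
    exact ⟨fun i => (hP.2.1 i _ (hp.1 i)).2, hp.2⟩
  refine ⟨fun p hp hi c T => criterion hp hi c T, fun Q => ?_, fun V => ?_, ?_⟩
  · obtain ⟨C, -, h⟩ := law hn hε Q
    exact ⟨C, h⟩
  · obtain ⟨C, -, h⟩ := law hn hε fun G v => ∀ c T, (mat G (v c) T).det ≠ 0 ↔ (c, T) ∈ V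
    refine ⟨C, fun X P hP => ?_⟩
    have key := h X P hP
    have e : ((Tuples P).filter fun p => ∀ c T, ZeroSeq c (sub p T) ↔ (c, T) ∈ V) =
        ((Tuples P).filter fun p => ∀ c T,
          (mat (graph p) (fun i => label c (p i)) T).det ≠ 0 ↔ (c, T) ∈ V) := by
      refine filter_congr fun p hp => forall_congr' fun c => forall_congr' fun T => ?_
      obtain ⟨h1, h2⟩ := hmem hP p hp
      rw [(criterion h1 h2 c T).1]
    rw [e]
    convert key
  · obtain ⟨C, -, h⟩ := law hn hε fun G v => (∀ c i, v c i = 1) ∧ Matching G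
    refine ⟨C, fun X P hP => ?_⟩
    have key := h X P hP
    have e : ((Tuples P).filter fun p => ∀ c T, ZeroSeq c (sub p T)) =
        ((Tuples P).filter fun p => (∀ c i, label c (p i) = 1) ∧ Matching (graph p)) := by
      refine filter_congr fun p hp => ?_
      obtain ⟨h1, h2⟩ := hmem hP p hp
      constructor
      · intro h3
        have h4 : ∀ c T, (mat (graph p) (fun i => label c (p i)) T).det ≠ 0 := fun c T =>
          (criterion h1 h2 c T).1.1 (h3 c T)
        have h5 : ∀ c, (∀ l, label c (p l) = 1) ∧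
            ∀ i, (univ.filter fun j => (graph p).Adj i j).card ≤ 1 := fun c =>
          Pool.Agent.R338.EQ.all_det.1 fun T _ => h4 c T
        exact ⟨fun c => (h5 c).1, (h5 true).2⟩
      · rintro ⟨h3, h4⟩ c T
        have h5 : (mat (graph p) (fun i => label c (p i)) T).det ≠ 0 :=
          Pool.Agent.R338.EQ.matching_det (h3 c) h4 T
        exact (criterion h1 h2 c T).1.2 h5
    have hlab : ∀ p : Fin n → ℕ, (∀ c i, label c (p i) = 1) ↔
        ∀ i, ¬ Eight (p i) ∧ ¬ Fourth (p i) := by
      intro p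
      have h1 : ∀ i, label false (p i) = 1 ↔ ¬ Eight (p i) := by
        intro i
        unfold label
        rw [if_neg (by decide)]
        by_cases h : Eight (p i)
        · rw [if_pos h]
          exact iff_of_false (by decide) fun h' => h' h
        · rw [if_neg h]
          exact iff_of_true rfl h
      have h2 : ∀ i, label true (p i) = 1 ↔ ¬ Fourth (p i) := by
        intro i
        unfold label
        rw [if_pos rfl]
        by_cases h : Fourth (p i)
        · rw [if_pos h]
          exact iff_of_false (by decide) fun h' => h' h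
        · rw [if_neg h]
          exact iff_of_true rfl h
      constructor
      · intro h i
        exact ⟨(h1 i).1 (h false i), (h2 i).1 (h true i)⟩
      · intro h c i
        cases c
        · exact (h1 i).2 (h i).1
        · exact (h2 i).2 (h i).2
    have e2 : ∑ p ∈ Tuples P, prob (fun G : SimpleGraph (Fin n) =>
        (∀ c i, label c (p i) = 1) ∧ Matching G) =
        prob (Matching (n := n)) *
          (((Tuples P).filter fun p => ∀ i, ¬ Eight (p i) ∧ ¬ Fourth (p i)).card : ℝ) := by
      rw [card_filter, Nat.cast_sum, mul_sum]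
      refine sum_congr rfl fun p _ => ?_
      by_cases h2 : ∀ i, ¬ Eight (p i) ∧ ¬ Fourth (p i)
      · rw [if_pos h2, Nat.cast_one, mul_one]
        have h3 : (fun G : SimpleGraph (Fin n) => (∀ c i, label c (p i) = 1) ∧ Matching G) =
            Matching (n := n) := by
          funext G
          exact propext (and_iff_right ((hlab p).2 h2))
        rw [h3]
      · rw [if_neg h2, Nat.cast_zero, mul_zero]
        have h3 : (fun G : SimpleGraph (Fin n) => (∀ c i, label c (p i) = 1) ∧ Matching G) =
            fun _ => False := by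
          funext G
          exact propext ⟨fun h => h2 ((hlab p).1 h.1), fun h => h.elim⟩
        rw [h3]
        unfold prob
        have h4 : Nat.card {G : SimpleGraph (Fin n) // False} = 0 := by
          rw [Nat.card_eq_zero]
          exact Or.inl ⟨fun x => x.2⟩
        rw [h4]
        simp
    rw [e]
    rw [e2] at key
    convert key

end Pool.Agent.Results.MP_a3f657_nt.SparseGraphs
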