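import Pool.Agent.NH3.XT.Zero

/-!
# The exact law of the `2`-Selmer groups of the quadratic twists of the curves
`y² = x (x - a²) (x - b²)`, `a² + c² = b²`

Let `a² + c² = b²` be a primitive Pythagorean triple, `a` odd, and `E_M : y² = x (x - a² M) (x - b² M)`; for
`(a, b, c) = (3, 5, 4)` these are the twists of `X_0(15)`. The class of the triple: the squarefree `D < 0`
such that `-D` is not a square modulo the primes `p ∣ a b`, `D` is not a square modulo the odd primes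
`p ∣ c`, and `D ≢ 1` modulo `8` if `8 ∣ c`.

* For `M` = a number of the class times a square, and `K = ℚ(√M)`:
  `#Sel_2(E_M) = 4 h²`, `#Sel_{2^∞}(E_M)[2] = 2 ^ rank #Ш(E_M)[2] = h²`, `h = 2 ^ r₄(K)`, `r₄` the four-rank of
  the class group. For `h = 1` all the terms of the sequence of `Sel_{2^∞}` are zero.
* For any finite set of triples, any different positive squarefree `g_1, …, g_n`, and any union `S` of
  residue classes such that the squarefree parts of all `D g_t` are in the classes of all the triples, the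
  proportion of the `D ∈ S` such that `#Sel_{2^∞}(E_{D g_t})[2] = 4 ^ r_t` for all `t` and all the triples
  tends to `∏ c(r_t)`, `∑ c(r) = 1`. The lower density of `S` is positive.
-/

set_option autoImplicit false

open Filter Topology

namespace Pool.Agent.Results.MP_a3f657_nt.TwoSelmerLawPythagorean

/-- a primitive Pythagorean triple `a² + c² = b²`, `a` odd, `c ≠ 0` -/
def Triple (a b c : ℤ) : Prop := a ^ 2 + c ^ 2 = b ^ 2 ∧ IsCoprime a c ∧ a % 2 = 1 ∧ c ≠ 0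

/-- a coefficient of `E_M` -/
def A (a b M : ℤ) : ℤ := -27 * (a ^ 4 - a ^ 2 * b ^ 2 + b ^ 4) * M ^ 2

/-- a coefficient of `E_M` -/
def B (a b M : ℤ) : ℤ :=
  27 * (a ^ 2 + b ^ 2) * (2 * b ^ 2 - a ^ 2) * (2 * a ^ 2 - b ^ 2) * M ^ 3

/-- The curve `E_M : y² = x³ + A x + B`; it is isomorphic to `y² = x (x - a² M) (x - b² M)`. -/
def E (a b M : ℤ) : WeierstrassCurve ℚ :=
  { a₁ := 0, a₂ := 0, a₃ := 0, a₄ := (A a b M : ℚ), a₆ := (B a b M : ℚ) }

/-- the class of a triple -/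
def InClass (a b c D : ℤ) : Prop := D < 0 ∧ Squarefree D ∧
  (∀ p : ℕ, p.Prime → (p : ℤ) ∣ a * b → ¬ IsSquare ((-D : ℤ) : ZMod p)) ∧
  (∀ p : ℕ, p.Prime → p ≠ 2 → (p : ℤ) ∣ c → ¬ IsSquare ((D : ℤ) : ZMod p)) ∧
  (8 ∣ c → D % 8 ≠ 1)

/-- the squarefree part of `M` is in the class -/
def Good (a b c M : ℤ) : Prop := ∃ D k : ℤ, k ≠ 0 ∧ M = D * k ^ 2 ∧ InClass a b c D

/-- the numbers `g` -/
def IsShift (a b c : ℤ) (g : ℕ) : Prop := Squarefree g ∧
  (∀ p : ℕ, p.Prime → p ≠ 2 → (p : ℤ) ∣ a * b * c → ¬ p ∣ g ∧ IsSquare (g : ZMod p)) ∧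
  (8 ∣ c → g % 8 = 1)

/-- The ideal classes `c` with `c² = 1` which are squares; their number is `2 ^ r`, `r` the four-rank of
the class group of `K`. -/
def SqTwo (K : Type) [Field K] [NumberField K] : Type :=
  {c : ClassGroup (NumberField.RingOfIntegers K) // c ^ 2 = 1 ∧ ∃ b, b ^ 2 = c}

/-- the number of the elements `x` of `Sel_{2 ^ ∞}(W)` with `2 x = 0` -/
noncomputable def selTwo (W : WeierstrassCurve ℚ) : ℕ :=
  Nat.card {x : Pool.Agent.Y667.BK.SelInf W // x + x = 0}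

/-- `#Sel_2(W) = 4 h²`, `#Sel_{2 ^ ∞}(W)[2] = h²` and `2 ^ rank #Ш(W)[2] = h²` -/
def Orders (W : WeierstrassCurve ℚ) (h : ℕ) : Prop :=
  Nat.card (Pool.Agent.Y667.SX.Sel2H W) = 4 * h ^ 2 ∧ selTwo W = h ^ 2 ∧
  2 ^ Module.finrank ℤ W.toAffine.Point *
    Nat.card {x : Pool.Agent.TH841.SH.D.Sha W // x + x = 0} = h ^ 2

/-- all the terms of the sequence `0 → W(ℚ) ⊗ ℚ₂/ℤ₂ → Sel_{2 ^ ∞}(W) → Ш(W)[2 ^ ∞] → 0` are zero -/
def ZeroSeq (W : WeierstrassCurve ℚ) : Prop :=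
  (∀ x : TensorProduct ℤ W.toAffine.Point Pool.Agent.TH841.SH.D.Pruf, x = 0) ∧
    (∀ x : Pool.Agent.Y667.BK.SelInf W, x = 0) ∧
    ∀ (k : ℕ) (x : Pool.Agent.TH841.SH.D.Sha W), (2 ^ k : ℕ) • x = 0 → x = 0

open Classical in
/-- the number of the squarefree `D < 0`, `|D| ≤ X`, with the property `P` -/
noncomputable def count (P : ℤ → Prop) (X : ℕ) : ℝ :=
  (((Finset.Icc (-(X : ℤ)) (-1)).filter fun D : ℤ => Squarefree D ∧ P D).card : ℝ)

/-- the constants `c(r) = 2 ^ (-r²) ∏_{i > r} (1 - 2 ^ (-i)) / ∏_{i ≤ r} (1 - 2 ^ (-i))` -/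
noncomputable def prob (r : ℕ) : ℝ :=
  (1 / 2 : ℝ) ^ (r ^ 2) * (∏' i : ℕ, (1 - (1 / 2 : ℝ) ^ (r + i + 1))) /
    ∏ i ∈ Finset.range r, (1 - (1 / 2 : ℝ) ^ (i + 1))

section proof

open Pool.Agent.NH3.XT
open Pool.Agent.NH4.XG (nx)

theorem jac {p : ℕ} (hp : p.Prime) (x : ℤ) : jacobiSym x p = -1 ↔ ¬ IsSquare (x : ZMod p) := by
  have : Fact p.Prime := ⟨hp⟩
  rw [← jacobiSym.legendreSym.to_jacobiSym]
  exact legendreSym.eq_neg_one_iff p

theorem cls_iff {a b c c' : ℤ} {e : ℕ} (hT : Tri a b c' e) (hc : c = 2 ^ e * c') (D : ℤ) :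
    InClass a b c D ↔ Cls a b c' e D := by
  unfold InClass Cls
  refine and_congr_right fun _ => and_congr_right fun _ => and_congr ?_ (and_congr ?_ ?_)
  · exact forall_congr' fun p => forall_congr' fun hp => forall_congr' fun _ => (jac hp _).symm
  · constructor
    · intro h p hp hpc
      refine (jac hp _).2 (h p hp ?_ ?_)
      · rintro rfl
        have h1 := hT.oc
        push_cast at hpc
        omega
      · rw [hc]
        exact hpc.mul_left _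
    · intro h p hp hp2 hpc
      refine (jac hp _).1 (h p hp ?_)
      rw [hc] at hpc
      have hpr : Prime (p : ℤ) := Nat.prime_iff_prime_int.1 hp
      rcases hpr.dvd_or_dvd hpc with h1 | h1
      · exfalso
        have h2 : (p : ℤ) ∣ 2 := hpr.dvd_of_dvd_pow h1
        have h3 : p ∣ 2 := by exact_mod_cast h2
        exact hp2 ((Nat.prime_dvd_prime_iff_eq hp Nat.prime_two).1 h3)
      · exact h1
  · refine imp_congr ?_ Iff.rfl
    have h1 := hT.he
    have h2 := hT.oc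
    rw [hc]
    constructor
    · intro h3
      by_contra h4
      have h5 : e = 2 := by omega
      rw [h5] at h3
      norm_num at h3
      omega
    · intro h3
      have h4 : (2 : ℤ) ^ 3 ∣ 2 ^ e := pow_dvd_pow 2 h3
      exact (by norm_num at h4; exact h4 : (8 : ℤ) ∣ 2 ^ e).mul_right _

theorem good_iff {a b c c' : ℤ} {e : ℕ} (hT : Tri a b c' e) (hc : c = 2 ^ e * c') {M : ℤ}
    (h : Good a b c M) : Gd a b c' e M := by
  obtain ⟨D, k, hk, hM, hD⟩ := h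
  exact ⟨D, k, hk, hM, (cls_iff hT hc D).1 hD⟩

theorem four_eq {x n : ℕ} (h : 4 * x = (2 * n) ^ 2) : x = n ^ 2 := by
  have h1 : (2 * n) ^ 2 = 4 * n ^ 2 := by ring
  omega

/-- the first part -/
theorem part1 {a b c M : ℤ} (hT : Triple a b c) (hM : Good a b c M) :
    (∀ (K : Type) [Field K] [NumberField K], Module.finrank ℚ K = 2 →
      (∃ x : K, x ^ 2 = (M : K)) → Orders (E a b M) (Nat.card (SqTwo K))) ∧
    (selTwo (E a b M) = 1 ↔ ZeroSeq (E a b M)) := by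
  obtain ⟨e, c', hc, hT'⟩ := t_PYT a b c hT.1 hT.2.1 hT.2.2.1 hT.2.2.2
  obtain ⟨D, k, hk, rfl, hD⟩ := good_iff hT' hc hM
  obtain ⟨ha, hb, hc0, hab⟩ := tri_ne hT'
  obtain ⟨h1, h2, h3⟩ := ords hT' hk hD
  refine ⟨fun K _ _ hK hx => ?_, fun h => ?_, fun h => ?_⟩
  · have hx' : ∃ x : K, x ^ 2 = (D : K) := by
      obtain ⟨x, hx⟩ := hx
      have hkK : (k : K) ≠ 0 := by exact_mod_cast hk
      refine ⟨x / k, ?_⟩
      rw [div_pow, hx]
      push_cast
      field_simp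
    obtain ⟨n1, n3⟩ := ne_small hT' hD
    have h4 := four_rank Pool.Agent.NH3.XS.t_R4 hD.1 hD.2.1 n1 n3 K hK hx'
    rw [← h4] at h1 h2 h3
    refine ⟨h1.trans ?_, four_eq h3, four_eq h2⟩
    show (2 * Nat.card (SqTwo K)) ^ 2 = _
    ring
  · refine zero_of ha hb hab (mul_ne_zero hD.1.ne (pow_ne_zero 2 hk)) ?_
    have h5 : (4 : ℕ) * 1 = nx D.natAbs.primeFactors ^ 2 := by
      rw [← h3]
      exact congrArg (4 * ·) h.symm
    omega
  · unfold selTwo
    rw [Nat.card_eq_one_iff_unique]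
    exact ⟨⟨fun x y => Subtype.ext ((h.2.1 _).trans (h.2.1 _).symm)⟩, ⟨0, add_zero 0⟩⟩

/-- the second part -/
theorem part2 {m n : ℕ} {a b c : Fin (m + 1) → ℤ} {g : Fin n → ℕ} {q : ℕ} {S : ℤ → Prop}
    (hT : ∀ i, Triple (a i) (b i) (c i)) (hg : ∀ t, Squarefree (g t))
    (hinj : Function.Injective g) (hq : 0 < q)
    (hper : ∀ D D' : ℤ, D ≡ D' [ZMOD q] → (S D ↔ S D'))
    (hex : ∃ D : ℤ, D < 0 ∧ Squarefree D ∧ S D)
    (hG : ∀ D : ℤ, D < 0 → Squarefree D → S D → ∀ i t, Good (a i) (b i) (c i) (D * g t))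
    (r : Fin n → ℕ) :
    Tendsto (fun X : ℕ => count (fun D => S D ∧
      ∀ i t, selTwo (E (a i) (b i) (D * g t)) = 4 ^ r t) X / count S X) atTop
      (𝓝 (∏ t, prob (r t))) ∧
    ∃ δ : ℝ, 0 < δ ∧ ∀ᶠ X : ℕ in atTop, δ * X ≤ count S X := by
  choose e c' hc hT' using fun i =>
    t_PYT (a i) (b i) (c i) (hT i).1 (hT i).2.1 (hT i).2.2.1 (hT i).2.2.2
  obtain ⟨h1, δ, X₀, hδ, h2⟩ := law_gen (Nat.succ_pos m) hT' hg hinj hq hper hex
    (fun D h0 hs hS i t => good_iff (hT' i) (hc i) (hG D h0 hs hS i t)) r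
  exact ⟨h1, δ, hδ, (eventually_ge_atTop X₀).mono h2⟩

/-- the class depends only on the residue class modulo `8 a b c` -/
theorem class_per {a b c D D' : ℤ} (h : D ≡ D' [ZMOD (8 * a * b * c).natAbs]) (h0 : D' < 0)
    (hs : Squarefree D') (hD : InClass a b c D) : InClass a b c D' := by
  have hdv : 8 * a * b * c ∣ D' - D := Int.natAbs_dvd.1 h.dvd
  have key : ∀ p : ℕ, (p : ℤ) ∣ 8 * a * b * c → ((D' : ℤ) : ZMod p) = ((D : ℤ) : ZMod p) := by
    intro p hp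
    exact ((ZMod.intCast_eq_intCast_iff_dvd_sub D D' p).2 (hp.trans hdv)).symm
  obtain ⟨-, -, h1, h2, h3⟩ := hD
  refine ⟨h0, hs, fun p hp hpd => ?_, fun p hp hp2 hpc => ?_, fun h8 => ?_⟩
  · have h4 := key p (by
      rw [mul_assoc 8 a b]
      exact (hpd.mul_left 8).mul_right c)
    have h5 := h1 p hp hpd
    push_cast at h5 ⊢
    rw [h4]
    exact h5
  · rw [key p (hpc.mul_left _)]
    exact h2 p hp hp2 hpc
  · have h4 : (8 : ℤ) ∣ D' - D := (Dvd.dvd.mul_right (Dvd.intro _ (mul_assoc 8 a b).symm) c).trans hdv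
    have h5 := h3 h8
    omega

/-- the products with the numbers `g` -/
theorem good_mul {a b c D : ℤ} {g : ℕ} (hT : Triple a b c) (hg : IsShift a b c g)
    (hD : InClass a b c D) : Good a b c (D * g) := by
  have hg0 : g ≠ 0 := hg.1.ne_zero
  have hDg : D * g ≠ 0 := mul_ne_zero hD.1.ne (by exact_mod_cast hg0)
  obtain ⟨x, y, hxy, hx⟩ := Nat.sq_mul_squarefree (D * g).natAbs
  have hy0 : y ≠ 0 := by
    rintro rfl
    rw [zero_pow two_ne_zero, zero_mul] at hxy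
    exact Int.natAbs_ne_zero.2 hDg hxy.symm
  have hx0 : x ≠ 0 := hx.ne_zero
  have hneg : D * g < 0 := mul_neg_of_neg_of_pos hD.1 (by exact_mod_cast Nat.pos_of_ne_zero hg0)
  have hM : D * g = -(x : ℤ) * (y : ℤ) ^ 2 := by
    have h2 : ((y ^ 2 * x : ℕ) : ℤ) = ((D * g).natAbs : ℤ) := by rw [hxy]
    push_cast at h2
    rw [abs_of_neg hneg] at h2
    linarith
  obtain ⟨hD0, hDs, h1, h2, h3⟩ := hD
  obtain ⟨hgs, h4, h5⟩ := hg
  refine ⟨-(x : ℤ), y, by exact_mod_cast hy0, hM, ?_, ?_, ?_, ?_, ?_⟩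
  · have : (0 : ℤ) < x := by exact_mod_cast Nat.pos_of_ne_zero hx0
    linarith
  · rw [← Int.squarefree_natAbs, Int.natAbs_neg, Int.natAbs_natCast]
    exact hx
  · intro p hp hpd hsq
    have : Fact p.Prime := ⟨hp⟩
    have hp2 : p ≠ 2 := by
      rintro rfl
      have h6 : a % 2 = 1 := hT.2.2.1
      have h7 : b % 2 = 1 := by
        obtain ⟨e, c', hc, hT'⟩ := t_PYT a b c hT.1 hT.2.1 hT.2.2.1 hT.2.2.2
        exact hT'.ob
      have h8 : (a * b) % 2 = 1 := by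
        rw [Int.mul_emod, h6, h7]
        norm_num
      push_cast at hpd
      omega
    obtain ⟨h6, s, hs⟩ := h4 p hp hp2 (hpd.mul_right c)
    have h7 := h1 p hp hpd
    have hM' : (D : ZMod p) * (g : ZMod p) = -(x : ZMod p) * (y : ZMod p) ^ 2 := by
      exact_mod_cast congrArg (Int.cast : ℤ → ZMod p) hM
    have hs0 : s ≠ 0 := by
      rintro rfl
      rw [mul_zero] at hs
      exact h6 ((ZMod.natCast_eq_zero_iff g p).1 hs)
    obtain ⟨w, hw⟩ := hsq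
    refine h7 ⟨w * y / s, ?_⟩
    push_cast at hw ⊢
    rw [neg_neg] at hw
    rw [hs, hw] at hM'
    field_simp
    linear_combination -hM'
  · intro p hp hp2 hpc hsq
    have : Fact p.Prime := ⟨hp⟩
    obtain ⟨h6, s, hs⟩ := h4 p hp hp2 (hpc.mul_left _)
    have h7 := h2 p hp hp2 hpc
    have hM' : (D : ZMod p) * (g : ZMod p) = -(x : ZMod p) * (y : ZMod p) ^ 2 := by
      exact_mod_cast congrArg (Int.cast : ℤ → ZMod p) hM
    have hs0 : s ≠ 0 := by
      rintro rfl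
      rw [mul_zero] at hs
      exact h6 ((ZMod.natCast_eq_zero_iff g p).1 hs)
    obtain ⟨w, hw⟩ := hsq
    refine h7 ⟨w * y / s, ?_⟩
    push_cast at hw ⊢
    rw [hs, hw] at hM'
    field_simp
    linear_combination hM'
  · intro h8 hx8
    have h6 := h5 h8
    have h7 := h3 h8
    have h9 : (D * g) % 8 = D % 8 := by
      have : (g : ℤ) % 8 = 1 := by omega
      rw [Int.mul_emod, this, mul_one, Int.emod_emod_of_dvd _ (dvd_refl 8)]
    rw [hM, Int.mul_emod, hx8, one_mul, Int.emod_emod_of_dvd _ (dvd_refl 8)] at h9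
    have hy8 : ((y : ℤ) ^ 2) % 8 = 0 ∨ ((y : ℤ) ^ 2) % 8 = 1 ∨ ((y : ℤ) ^ 2) % 8 = 4 := by
      have h10 : (y : ℤ) % 8 = 0 ∨ (y : ℤ) % 8 = 1 ∨ (y : ℤ) % 8 = 2 ∨ (y : ℤ) % 8 = 3 ∨
        (y : ℤ) % 8 = 4 ∨ (y : ℤ) % 8 = 5 ∨ (y : ℤ) % 8 = 6 ∨ (y : ℤ) % 8 = 7 := by omega
      rcases h10 with h | h | h | h | h | h | h | h <;> simp [pow_two, Int.mul_emod, h]
    have h4D : D % 4 ≠ 0 := by
      intro h
      have h11 : (2 : ℤ) * 2 ∣ D := by omega
      have h12 := hDs 2 h11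
      rw [Int.isUnit_iff] at h12
      omega
    rcases hy8 with h | h | h <;> omega

/-- the third part -/
theorem part3 {a b c : ℤ} (hT : Triple a b c) {n : ℕ} {g : Fin n → ℕ}
    (hg : ∀ t, IsShift a b c (g t)) (hinj : Function.Injective g) (r : Fin n → ℕ) :
    Tendsto (fun X : ℕ => count (fun D => InClass a b c D ∧
      ∀ t, selTwo (E a b (D * g t)) = 4 ^ r t) X / count (InClass a b c) X) atTop
      (𝓝 (∏ t, prob (r t))) ∧
    ∃ δ : ℝ, 0 < δ ∧ ∀ᶠ X : ℕ in atTop, δ * X ≤ count (InClass a b c) X := by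
  classical
  set q := (8 * a * b * c).natAbs with hqd
  obtain ⟨e, c', hc, hT'⟩ := t_PYT a b c hT.1 hT.2.1 hT.2.2.1 hT.2.2.2
  obtain ⟨ha, hb, hc0, hab⟩ := tri_ne hT'
  have hq : 0 < q := by
    refine Int.natAbs_pos.2 (mul_ne_zero (mul_ne_zero (mul_ne_zero (by norm_num) ha) hb) hT.2.2.2)
  let S : ℤ → Prop := fun D => ∃ D₀ : ℤ, D₀ ≡ D [ZMOD q] ∧ InClass a b c D₀
  have hSI : ∀ D : ℤ, D < 0 → Squarefree D → (S D ↔ InClass a b c D) := by
    intro D h0 hs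
    constructor
    · rintro ⟨D₀, h1, h2⟩
      exact class_per h1 h0 hs h2
    · exact fun h => ⟨D, Int.ModEq.refl D, h⟩
  have hper : ∀ D D' : ℤ, D ≡ D' [ZMOD q] → (S D ↔ S D') := by
    intro D D' h
    constructor
    · rintro ⟨D₀, h1, h2⟩
      exact ⟨D₀, h1.trans h, h2⟩
    · rintro ⟨D₀, h1, h2⟩
      exact ⟨D₀, h1.trans h.symm, h2⟩
  obtain ⟨D₁, hD₁⟩ := t_EXI a b c' e hT'
  have hD₁' : InClass a b c D₁ := (cls_iff hT' hc D₁).2 hD₁
  have h := part2 (m := 0) (a := fun _ => a) (b := fun _ => b) (c := fun _ => c) (g := g) (q := q)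
    (S := S) (fun _ => hT) (fun t => (hg t).1) hinj hq hper
    ⟨D₁, hD₁'.1, hD₁'.2.1, (hSI D₁ hD₁'.1 hD₁'.2.1).2 hD₁'⟩
    (fun D h0 hs hS _ t => good_mul hT (hg t) ((hSI D h0 hs).1 hS)) r
  have key0 : ∀ Q Q' : ℤ → Prop, (∀ D : ℤ, D < 0 → Squarefree D → (Q D ↔ Q' D)) →
      ∀ X : ℕ, count Q X = count Q' X := by
    intro Q Q' h X
    unfold count
    refine congrArg (fun s : Finset ℤ => ((s.card : ℕ) : ℝ)) (Finset.ext fun D => ?_)
    rw [Finset.mem_filter, Finset.mem_filter]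
    refine and_congr_right fun hD => and_congr_right fun hs => ?_
    rw [Finset.mem_Icc] at hD
    exact h D (by omega) hs
  have e1 := key0 _ _ hSI
  have e2 := key0 (fun D => S D ∧ ∀ (i : Fin (0 + 1)) (t : Fin n), selTwo (E a b (D * g t)) = 4 ^ r t)
    (fun D => InClass a b c D ∧ ∀ t, selTwo (E a b (D * g t)) = 4 ^ r t) (fun D h0 hs => by
      rw [hSI D h0 hs]
      exact and_congr_right fun _ => ⟨fun h => h 0, fun h _ => h⟩)
  simp only [e1, e2] at h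
  exact h

end proof

/-- **Main theorem.** -/
theorem result :
    (∀ a b c M : ℤ, Triple a b c → Good a b c M →
      (∀ (K : Type) [Field K] [NumberField K], Module.finrank ℚ K = 2 →
        (∃ x : K, x ^ 2 = (M : K)) → Orders (E a b M) (Nat.card (SqTwo K))) ∧
      (selTwo (E a b M) = 1 ↔ ZeroSeq (E a b M))) ∧
    (∀ (m n : ℕ) (a b c : Fin (m + 1) → ℤ) (g r : Fin n → ℕ) (q : ℕ) (S : ℤ → Prop),
      (∀ i, Triple (a i) (b i) (c i)) → (∀ t, Squarefree (g t)) → Function.Injective g → 0 < q →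
      (∀ D D' : ℤ, D ≡ D' [ZMOD q] → (S D ↔ S D')) → (∃ D : ℤ, D < 0 ∧ Squarefree D ∧ S D) →
      (∀ D : ℤ, D < 0 → Squarefree D → S D → ∀ i t, Good (a i) (b i) (c i) (D * g t)) →
      Tendsto (fun X : ℕ => count (fun D => S D ∧
        ∀ i t, selTwo (E (a i) (b i) (D * g t)) = 4 ^ r t) X / count S X) atTop
        (𝓝 (∏ t, prob (r t))) ∧
      ∃ δ : ℝ, 0 < δ ∧ ∀ᶠ X : ℕ in atTop, δ * X ≤ count S X) ∧
    (∀ a b c : ℤ, Triple a b c → ∀ (n : ℕ) (g r : Fin n → ℕ), (∀ t, IsShift a b c (g t)) →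
      Function.Injective g →
      Tendsto (fun X : ℕ => count (fun D => InClass a b c D ∧
        ∀ t, selTwo (E a b (D * g t)) = 4 ^ r t) X / count (InClass a b c) X) atTop
        (𝓝 (∏ t, prob (r t))) ∧
      ∃ δ : ℝ, 0 < δ ∧ ∀ᶠ X : ℕ in atTop, δ * X ≤ count (InClass a b c) X) ∧
    HasSum prob 1 :=
  ⟨fun _ _ _ _ hT hM => part1 hT hM,
    fun _ _ _ _ _ _ r _ _ hT hg hinj hq hper hex hG => part2 hT hg hinj hq hper hex hG r,
    fun _ _ _ hT _ _ r hg hinj => part3 hT hg hinj r, Pool.Agent.NH3.XT.t_SUM⟩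

end Pool.Agent.Results.MP_a3f657_nt.TwoSelmerLawPythagorean
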